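import Pool.Agent.K1H76.DK.Stm

/-! Piece ASM of the project DK. -/

namespace Pool.Agent.K1H59.DK

open Finset Filter Topology Pool.Agent.K1H76.DK

theorem t_ASM : S_ASM := by
  intro c H
  rw [Metric.tendsto_atTop]
  intro δ hδ
  have hl2 : 0 < Real.log 2 := Real.log_pos (by norm_num)
  obtain ⟨ε, hε⟩ : ∃ ε, ε = min (1 / 2) (δ * Real.log 2 / 2) := ⟨_, rfl⟩
  have hε0 : 0 < ε := by
    rw [hε]
    exact lt_min (by norm_num) (by positivity)
  have hε1 : ε < 1 := by
    have : ε ≤ 1 / 2 := by rw [hε]; exact min_le_left _ _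
    linarith
  have hεδ : ε ≤ δ * Real.log 2 / 2 := by rw [hε]; exact min_le_right _ _
  obtain ⟨k₀, hk₀⟩ := H ε hε0 hε1
  refine ⟨max k₀ 16, fun k hk => ?_⟩
  have hk0 : k₀ ≤ k := le_trans (le_max_left _ _) hk
  have hk16 : 16 ≤ k := le_trans (le_max_right _ _) hk
  obtain ⟨h1, h2⟩ := hk₀ k hk0
  have hpos : 0 < 1 - c k := lt_of_lt_of_le (Real.exp_pos _) h1
  have h3 : -(1 + ε) * Lam k ≤ Real.log (1 - c k) := (Real.le_log_iff_exp_le hpos).mpr h1
  have h4 : Real.log (1 - c k) ≤ -(1 - ε) * Lam k := (Real.log_le_iff_le_exp hpos).mpr h2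
  have hkr : (16 : ℝ) ≤ k := by exact_mod_cast hk16
  have hlk : 1 < Real.log k := by
    have h5 : Real.log 16 ≤ Real.log k := Real.log_le_log (by norm_num) hkr
    have h6 : Real.log 16 = 4 * Real.log 2 := by
      rw [show (16 : ℝ) = 2 ^ 4 by norm_num, Real.log_pow]
      norm_num
    have h7 := Real.log_two_gt_d9
    linarith
  have hllk : 0 < Real.log (Real.log k) := Real.log_pos hlk
  obtain ⟨L, hL⟩ : ∃ L, L = Real.log k * Real.log (Real.log k) := ⟨_, rfl⟩
  have hL0 : 0 < L := by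
    rw [hL]
    exact mul_pos (by linarith) hllk
  have hLam : Lam k = L / Real.log 2 := by
    unfold Lam
    rw [hL]
  rw [hLam] at h3 h4
  rw [← hL, Real.dist_eq]
  have e : -Real.log (1 - c k) / L - 1 / Real.log 2 =
      (-Real.log (1 - c k) - L / Real.log 2) / L := by
    field_simp
  rw [e, abs_div, abs_of_pos hL0, div_lt_iff₀ hL0, abs_lt]
  have h8 : ε * (L / Real.log 2) < δ * L := by
    have h9 : ε * (L / Real.log 2) ≤ δ * Real.log 2 / 2 * (L / Real.log 2) := by
      apply mul_le_mul_of_nonneg_right hεδ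
      positivity
    have h10 : δ * Real.log 2 / 2 * (L / Real.log 2) = δ * L / 2 := by
      field_simp
    have h11 : 0 < δ * L := mul_pos hδ hL0
    linarith
  constructor
  · nlinarith
  · nlinarith

end Pool.Agent.K1H59.DK
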